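import Mathlib
import Pool.Agent.Lib.MP_3ef01f_nt.Def
import Pool.Agent.Lib.MP_3ef01f_nt.XMain

set_option autoImplicit false

namespace Pool.Agent.Results.MP_3ef01f_nt.ExactPeriod

open Pool.Agent.Lib.MP_3ef01f_nt

/-- For a prime `p ≡ 1 (mod 4)` and `e ≥ 1`, let `c = 2 ^ ((p-1)/4) * choose ((p-1)/2) ((p-1)/4)`
in `ZMod p` and `T = p ^ (e-1) * (p-1)/4 * orderOf c` (with `e - 2`, truncated at `0`, in place of
`e - 1` for `p = 5`). The eventual period lengths of the integers `d n` modulo `p ^ e` are exactly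
the multiples of `T`, they are periods from `n ≥ e / 4` on, and `T` divides
`p ^ (e-1) * (p-1) ^ 2 / 8`. -/
theorem result (p e : ℕ) (hp : p.Prime) (h4 : p % 4 = 1) (he : 1 ≤ e) (T : ℕ)
    (hT : T = p ^ (if p = 5 then e - 2 else e - 1) * ((p - 1) / 4 *
      orderOf ((2 : ZMod p) ^ ((p - 1) / 4) *
        ((((p - 1) / 2).choose ((p - 1) / 4) : ℕ) : ZMod p)))) :
    (∀ L : ℕ, (∃ N, ∀ n, N ≤ n → ∃ a b : ℤ, d n = a ∧ d (n + L) = b ∧
      b ≡ a [ZMOD (p : ℤ) ^ e]) ↔ T ∣ L) ∧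
    (∀ L n : ℕ, T ∣ L → e ≤ 4 * n → ∃ a b : ℤ, d n = a ∧ d (n + L) = b ∧
      b ≡ a [ZMOD (p : ℤ) ^ e]) ∧
    T ∣ p ^ (e - 1) * (p - 1) ^ 2 / 8 :=
  exact_period p e hp h4 he T hT

end Pool.Agent.Results.MP_3ef01f_nt.ExactPeriod
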